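import Pool.Agent.PPD.Shift

/-!
The door of a perfect pair (note 2204, helper98) and the shift door, for quaternionic structures
with `-1 = 1`.
-/

set_option autoImplicit false
set_option linter.unusedSectionVars false

namespace Pool.Agent.PPD

open QS Pool.Agent.RFT Pool.Agent.ETG Pool.Agent.RFN Pool.Agent.AST Pool.Agent.LSS
open Pool.Agent.RDC
open Pool.Agent.Helper58.PLine (QData)

/-- some quaternion `q (a, b) ≠ 0` has a slot `w` such that `w n` is a slot for every non-slot `n`
commuting with some slot -/
def HasShift (S : QStruct) : Prop :=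
  ∃ a b, S.q a b ≠ S.zero ∧ ∃ w ∈ Slots S a b, ∀ y ∈ Slots S a b, ∀ n, S.q y n = S.zero →
      n ∉ Slots S a b → w * n ∈ Slots S a b

theorem hasStab_of_shift (S : QStruct) [Finite S.G] (hneg : S.neg = 1) (h : HasShift S) :
    HasStab S := by
  obtain ⟨a, b, hab, w, hw, h1⟩ := h
  refine ⟨a, b, hab, w, hw, ?_⟩
  set D := toD S hneg with hD'
  have hSl : ∀ x : Additive S.G, SlQ D (S.q a b) x ↔ Additive.toMul x ∈ Slots S a b := by
    intro x
    constructor
    · rintro ⟨y, hy⟩
      exact ⟨Additive.toMul y, hy⟩
    · rintro ⟨y, hy⟩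
      exact ⟨Additive.ofMul y, hy⟩
  intro m hm hm' y hy
  refine (hSl (Additive.ofMul y + Additive.ofMul m)).1 ?_
  apply stab_of_shift (S := D) (c := S.q a b) (w := Additive.ofMul w) ((hSl _).2 hw)
  · intro x n hx hn hn'
    exact (hSl (Additive.ofMul w + n)).2 (h1 _ ((hSl x).1 hx) (Additive.toMul n) hn
      fun h => hn' ((hSl n).2 h))
  · exact hm
  · exact fun h => hm' ((hSl _).1 h)
  · exact (hSl _).2 hy

/-- a perfect pair of slots `y`, `z` of the quaternion `q (y, z) ≠ 0`: every element commuting
with some slot is a product of an element commuting with `y` and an element commuting with `z`,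
and an element commuting with `y z` has only the values `0` and `q (y, z)` at `z` -/
def HasPerfect (S : QStruct) : Prop :=
  ∃ y z, S.q y z ≠ S.zero ∧
    (∀ x ∈ Slots S y z, ∀ n, S.q x n = S.zero →
      ∃ a b, S.q y a = S.zero ∧ S.q z b = S.zero ∧ n = a * b) ∧
    (∀ v, S.q (y * z) v = S.zero → S.q z v = S.zero ∨ S.q z v = S.q y z)

theorem hasShift_of_perfect (S : QStruct) (hneg : S.neg = 1) (h : HasPerfect S) :
    HasShift S := by
  obtain ⟨y, z, hyz, h1, h2⟩ := h
  set D := toD S hneg with hD'
  have he : D.e = 0 := rfl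
  have hSl : ∀ x : Additive S.G, SlQ D (S.q y z) x ↔ Additive.toMul x ∈ Slots S y z := by
    intro x
    constructor
    · rintro ⟨y, hy⟩
      exact ⟨Additive.toMul y, hy⟩
    · rintro ⟨y, hy⟩
      exact ⟨Additive.ofMul y, hy⟩
  have hw : SlQ D (S.q y z) (Additive.ofMul y + Additive.ofMul z) := by
    refine ⟨Additive.ofMul z, ?_⟩
    have : D.q (Additive.ofMul y + Additive.ofMul z) (Additive.ofMul z) =
        D.q (Additive.ofMul y) (Additive.ofMul z) := by
      apply ETCP.q_eq'
      refine (ETCP.C.self he (Additive.ofMul z)).of_eq ?_ rfl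
      exact ETCP.eo (by abel_nf; simp [ETCP.ch2])
    exact this
  refine ⟨y, z, hyz, y * z, (hSl _).1 hw, ?_⟩
  intro x hx n hn hn'
  refine (hSl (Additive.ofMul y + Additive.ofMul z + Additive.ofMul n)).1 ?_
  apply shift_of_perfect (S := D) he (c := S.q y z) (y := Additive.ofMul y)
    (z := Additive.ofMul z) rfl ?_ ?_ (Additive.ofMul x) (Additive.ofMul n) ((hSl _).2 hx) hn
    (fun h => hn' ((hSl _).1 h))
  · intro x n hx hn
    obtain ⟨a, b, h3, h4, h5⟩ := h1 _ ((hSl x).1 hx) (Additive.toMul n) hn
    exact ⟨Additive.ofMul a, Additive.ofMul b, h3, h4, h5⟩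
  · intro v hv
    exact h2 (Additive.toMul v) hv

/-- a structure with `-1 = 1` all of whose smaller structures are of elementary type and which
has such a slot is of elementary type -/
theorem top_of_shift (S : QStruct) [Finite S.G] (hneg : S.neg = 1)
    (hT : ∀ T : QStruct, Finite T.G → T.neg = 1 → Nat.card T.G < Nat.card S.G → ElemType T)
    (h : HasShift S) : ElemType S :=
  top_of_stab S hneg hT (hasStab_of_shift S hneg h)

/-- a structure with `-1 = 1` all of whose smaller structures are of elementary type and which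
has a perfect pair is of elementary type -/
theorem top_of_perfect (S : QStruct) [Finite S.G] (hneg : S.neg = 1)
    (hT : ∀ T : QStruct, Finite T.G → T.neg = 1 → Nat.card T.G < Nat.card S.G → ElemType T)
    (h : HasPerfect S) : ElemType S :=
  top_of_shift S hneg hT (hasShift_of_perfect S hneg h)

/-- **The shift door.** -/
theorem all_of_shift
    (h : ∀ S : QStruct, Finite S.G → S.neg = 1 →
      (∀ T : QStruct, Finite T.G → T.neg = 1 → Nat.card T.G < Nat.card S.G → ElemType T) →
      ¬ ElemType S → HasShift S) :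
    ∀ S : QStruct, Finite S.G → S.neg = 1 → ElemType S :=
  all_of_stab fun S h1 h2 h3 h4 =>
    have := h1
    hasStab_of_shift S h2 (h S h1 h2 h3 h4)

/-- **The door of a perfect pair.** -/
theorem all_of_perfect
    (h : ∀ S : QStruct, Finite S.G → S.neg = 1 →
      (∀ T : QStruct, Finite T.G → T.neg = 1 → Nat.card T.G < Nat.card S.G → ElemType T) →
      ¬ ElemType S → HasPerfect S) :
    ∀ S : QStruct, Finite S.G → S.neg = 1 → ElemType S :=
  all_of_shift fun S h1 h2 h3 h4 => hasShift_of_perfect S h2 (h S h1 h2 h3 h4)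

end Pool.Agent.PPD
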