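import Pool.Agent.RDC.StabQ

/-!
The other direction of Theorem P (note 2129; symmetry of the matrix of note 2152) and Lemma GL of
note 2204: perfect pairs.
-/

set_option autoImplicit false
set_option linter.unusedSectionVars false
set_option linter.unusedSimpArgs false

namespace Pool.Agent.PPD

open Finset ETC Pool.Agent.ETCP Pool.Agent.LSS Pool.Agent.RDC Matrix
open Pool.Agent.Helper58.PLine (QData)

variable {V Q : Type} [AddCommGroup V] [Module (ZMod 2) V] {S : QData V Q}

open Classical in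
/-- the defect matrix -/
noncomputable def MD [Fintype V] (S : QData V Q) (c : Q) :
    Matrix {x // SlQ S c x} {x // ¬ SlQ S c x} ℤ :=
  MA S c * MZ S c + MZ S c * MN S c - MT S c * MZ S c

open Classical in
/-- the matrix `P` of Theorem P is symmetric -/
theorem P_symm [Fintype V] {c : Q} :
    (MD S c * (MZ S c)ᵀ)ᵀ = MD S c * (MZ S c)ᵀ := by
  set T := MT S c with hT
  set A := MA S c with hA
  set Z := MZ S c with hZ
  set N := MN S c with hN
  have hc1 : Z * Zᵀ = T * T - A * A := by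
    rw [hT, hA, hZ, TT_eq, add_sub_cancel_left]
  have h0 : T * A = A * T := TA_comm
  have e1 : MD S c * Zᵀ = (A - T) * (T * T - A * A) + Z * N * Zᵀ := by
    rw [← hc1]
    simp only [MD, ← hT, ← hA, ← hZ, ← hN]
    rw [Matrix.sub_mul, Matrix.add_mul, Matrix.sub_mul, ← Matrix.mul_assoc, ← Matrix.mul_assoc]
    abel
  have e2 : (T * T - A * A) * (A - T) = (A - T) * (T * T - A * A) := by
    have e : (T * T - A * A) * (A - T) - (A - T) * (T * T - A * A) =
        T * (T * A) - (A * T) * T - (T * A) * A + A * (A * T) := by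
      noncomm_ring
    rw [← sub_eq_zero, e, ← h0, Matrix.mul_assoc T A T, ← h0, Matrix.mul_assoc T A A,
      ← Matrix.mul_assoc A T A, ← h0, Matrix.mul_assoc T A A]
    simp
  rw [e1, Matrix.transpose_add]
  congr 1
  · rw [Matrix.transpose_mul, Matrix.transpose_sub, Matrix.transpose_sub, Matrix.transpose_mul,
      Matrix.transpose_mul, hT, hA, MT_symm, MA_symm, ← hT, ← hA, e2]
  · rw [Matrix.transpose_mul, Matrix.transpose_mul, Matrix.transpose_transpose, hN, MN_symm,
      Matrix.mul_assoc]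

open Classical in
theorem MD_pos [Fintype V] {c : Q} (x : {x // SlQ S c x}) (n : {x // ¬ SlQ S c x})
    (h : ¬ SlQ S c ((x : V) + n)) : 0 < MD S c x n := by
  rw [MD, Matrix.sub_apply, TZ_zero x n h, sub_zero]
  exact M_pos x n

open Classical in
theorem MD_zero [Fintype V] {c : Q} (x : {x // SlQ S c x}) (n : {x // ¬ SlQ S c x})
    (h : SlQ S c ((x : V) + n)) : MD S c x n = 0 := by
  rw [MD, Matrix.sub_apply, TZ_eq x n h, sub_self]

open Classical in
theorem MD_nonneg [Fintype V] {c : Q} (x : {x // SlQ S c x}) (n : {x // ¬ SlQ S c x}) :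
    0 ≤ MD S c x n := by
  by_cases h : SlQ S c ((x : V) + n)
  · rw [MD_zero x n h]
  · exact (MD_pos x n h).le

/-- **Theorem P, the other direction**: if the slot `w` moves all non-slots in the group generated
by the slots to slots, then all non-slots commuting with `w` are stabilizers. -/
theorem stab_of_shift [Finite V] {c : Q} {w : V} (hw : SlQ S c w)
    (hsh : ∀ y n, SlQ S c y → C S y n → ¬ SlQ S c n → SlQ S c (w + n))
    {m y : V} (hm : C S w m) (hm' : ¬ SlQ S c m) (hy : SlQ S c y) : SlQ S c (y + m) := by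
  classical
  have := Fintype.ofFinite V
  by_contra hym
  have e1 : (MD S c * (MZ S c)ᵀ) ⟨w, hw⟩ ⟨y, hy⟩ = 0 := by
    rw [Matrix.mul_apply]
    apply Finset.sum_eq_zero
    rintro ⟨n, hn⟩ _
    by_cases h : C S y n
    · rw [MD_zero ⟨w, hw⟩ ⟨n, hn⟩ (hsh y n hy h hn), zero_mul]
    · have : (MZ S c)ᵀ ⟨n, hn⟩ ⟨y, hy⟩ = 0 := by
        simp only [MZ, Matrix.transpose_apply]
        exact ind_false h
      rw [this, mul_zero]
  have e2 : (MD S c * (MZ S c)ᵀ) ⟨y, hy⟩ ⟨w, hw⟩ = 0 := by
    rw [← e1]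
    exact congrFun (congrFun (P_symm (S := S) (c := c)) ⟨w, hw⟩) ⟨y, hy⟩
  rw [Matrix.mul_apply] at e2
  have h7 := (Finset.sum_eq_zero_iff_of_nonneg (fun m _ => by
    apply mul_nonneg (MD_nonneg _ _)
    simp only [MZ, Matrix.transpose_apply]
    exact ind_nonneg' _)).1 e2 ⟨m, hm'⟩ (Finset.mem_univ _)
  have h8 : (MZ S c)ᵀ ⟨m, hm'⟩ ⟨w, hw⟩ = 1 := by
    simp only [MZ, Matrix.transpose_apply]
    exact ind_true' hm
  rw [h8, mul_one] at h7
  exact (MD_pos ⟨y, hy⟩ ⟨m, hm'⟩ hym).ne' h7

/-- **Lemma GL.**  `n = a + b` with `a` commuting with `y` and `b` commuting with `z`: there is `v`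
commuting with `y + z` such that `q (z, v) = q (y, v)` is a value of `n` and
`q (z, y + v)` is a value of `n + y + z`. -/
theorem gl (he : S.e = 0) {y z a b : V} (ha : C S y a) (hb : C S z b) :
    ∃ v, C S (y + z) v ∧ S.q (a + b) (v + b) = S.q z v ∧
      S.q (a + b + (y + z)) (v + b + y) = S.q z (y + v) := by
  have e1 : S.q (a + b + z) b = S.q a b := by
    apply q_eq'
    exact ((C.self he b).add' hb).of_eq (eo (by abel_nf; simp [ch2, ch3, ch4])) rfl
  have e2 : S.q (a + b + y) (b + y) = S.q a b := by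
    have k1 : S.q (a + b + y) (b + y) = S.q a (b + y) := by
      apply q_eq'
      exact (C.self he (b + y)).of_eq (eo (by abel_nf; simp [ch2, ch3, ch4])) rfl
    have k2 : S.q a (b + y) = S.q a b := by
      apply q_eq
      exact ha.symm.of_eq rfl (eo (by abel_nf; simp [ch2, ch3, ch4]))
    rw [k1, k2]
  obtain ⟨v, h1, h2, h3⟩ := link (e1.trans e2.symm)
  refine ⟨v, h3.of_eq (eo (by abel_nf; simp [ch2, ch3, ch4])) rfl, ?_, ?_⟩
  · have k1 : S.q (a + b) (v + b) = S.q z (v + b) := by
      apply q_eq'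
      exact h1.of_eq rfl (add_comm _ _)
    rw [k1]
    apply q_eq
    exact hb.of_eq rfl (eo (by abel_nf; simp [ch2, ch3, ch4]))
  · have k1 : S.q (a + b + (y + z)) (v + b + y) = S.q z (v + b + y) := by
      apply q_eq'
      exact h2.of_eq (eo (by abel_nf; simp [ch2, ch3, ch4])) (eo (by abel_nf; simp [ch2, ch3, ch4]))
    rw [k1]
    apply q_eq
    exact hb.of_eq rfl (eo (by abel_nf; simp [ch2, ch3, ch4]))

/-- a perfect pair `(y, z)` of slots of `c = q (y, z)`: the slot `y + z` moves non-slots to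
slots -/
theorem shift_of_perfect (he : S.e = 0) {c : Q} {y z : V} (hyz : S.q y z = c)
    (h1 : ∀ x n, SlQ S c x → C S x n → ∃ a b, C S y a ∧ C S z b ∧ n = a + b)
    (h2 : ∀ v, C S (y + z) v → C S z v ∨ S.q z v = c) :
    ∀ x n, SlQ S c x → C S x n → ¬ SlQ S c n → SlQ S c (y + z + n) := by
  intro x n hx hxn hn
  obtain ⟨a, b, ha, hb, rfl⟩ := h1 x n hx hxn
  obtain ⟨v, hv, h3, h4⟩ := gl he ha hb
  rcases h2 v hv with h5 | h5
  · refine ⟨v + b + y, ?_⟩
    rw [add_comm (y + z), h4, ← hyz, S.symm y z]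
    apply q_eq
    exact h5.of_eq rfl (eo (by abel_nf; simp [ch2, ch3, ch4]))
  · exact absurd ⟨v + b, h3.trans h5⟩ hn

end Pool.Agent.PPD
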